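import Pool.Agent.Helper74.HG.GoalsC

/-! # Packet HG-BPI: Bernstein-Sato polynomials of products in separate variables -/

namespace Pool.Agent.Helper41.HG.BPI

open MvPolynomial Pool.Agent.Helper74.HG

/-- `P` has a lift to the variables `(i, x)` -/
def Lift {σ : Type} (ι : Type) (i : ι) (P : ℂ → Module.End ℂ (MvPolynomial σ ℂ)) : Prop :=
  ∃ P' ∈ DSk ℂ (ι × σ), ∀ (s : ℂ) (p : MvPolynomial σ ℂ) (q : MvPolynomial (ι × σ) ℂ),
    (∀ x, pderiv (i, x) q = 0) →
      P' s (rename (fun x => (i, x)) p * q) = rename (fun x => (i, x)) (P s p) * q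

theorem lift {σ : Type} (ι : Type) (i : ι) (P : ℂ → Module.End ℂ (MvPolynomial σ ℂ))
    (hP : P ∈ DSk ℂ σ) : Lift ι i P := by
  have hinj : Function.Injective (fun x : σ => ((i, x) : ι × σ)) := fun a b h => by
    simpa using h
  unfold DSk at hP
  induction hP using Algebra.adjoin_induction with
  | mem P hP =>
    rcases hP with (⟨x, rfl⟩ | ⟨x, rfl⟩) | h
    · refine ⟨fun _ : ℂ => LinearMap.mulLeft ℂ (X (i, x) : MvPolynomial (ι × σ) ℂ),
        Algebra.subset_adjoin (Or.inl (Or.inl ⟨(i, x), rfl⟩)), fun s p q _ => ?_⟩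
      simp only [LinearMap.mulLeft_apply, map_mul, rename_X]
      ring
    · refine ⟨fun _ : ℂ => ((pderiv (i, x) : Derivation ℂ (MvPolynomial (ι × σ) ℂ)
          (MvPolynomial (ι × σ) ℂ)) : MvPolynomial (ι × σ) ℂ →ₗ[ℂ] MvPolynomial (ι × σ) ℂ),
        Algebra.subset_adjoin (Or.inl (Or.inr ⟨(i, x), rfl⟩)), fun s p q hq => ?_⟩
      simp only [Derivation.coeFn_coe]
      rw [Derivation.leibniz, hq x, smul_zero, zero_add, smul_eq_mul, mul_comm]
      congr 1
      exact pderiv_rename hinj x p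
    · rw [Set.mem_singleton_iff] at h
      subst h
      refine ⟨fun s : ℂ => s • (1 : Module.End ℂ (MvPolynomial (ι × σ) ℂ)),
        Algebra.subset_adjoin (Or.inr rfl), fun s p q _ => ?_⟩
      simp only [LinearMap.smul_apply, Module.End.one_apply, map_smul, smul_mul_assoc]
  | algebraMap c =>
    refine ⟨algebraMap ℂ _ c, Subalgebra.algebraMap_mem _ c, fun s p q _ => ?_⟩
    simp only [Pi.algebraMap_apply, Module.algebraMap_end_apply, map_smul, smul_mul_assoc]
  | add P Q _ _ h1 h2 =>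
    obtain ⟨P', hP', h1⟩ := h1
    obtain ⟨Q', hQ', h2⟩ := h2
    refine ⟨P' + Q', Subalgebra.add_mem _ hP' hQ', fun s p q hq => ?_⟩
    simp only [Pi.add_apply, LinearMap.add_apply, map_add]
    rw [h1 s p q hq, h2 s p q hq, add_mul]
  | mul P Q _ _ h1 h2 =>
    obtain ⟨P', hP', h1⟩ := h1
    obtain ⟨Q', hQ', h2⟩ := h2
    refine ⟨P' * Q', Subalgebra.mul_mem _ hP' hQ', fun s p q hq => ?_⟩
    simp only [Pi.mul_apply, Module.End.mul_apply]
    rw [h2 s p q hq, h1 s _ q hq]

theorem pd_rename {σ ι : Type} {i j : ι} (hij : i ≠ j) (g : MvPolynomial σ ℂ) (x : σ) :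
    pderiv (j, x) (rename (fun x => (i, x)) g) = 0 := by
  classical
  apply pderiv_eq_zero_of_notMem_vars
  intro h
  have h1 := vars_rename (fun x => ((i, x) : ι × σ)) g h
  rw [Finset.mem_image] at h1
  obtain ⟨y, -, hy⟩ := h1
  exact hij (congrArg Prod.fst hy)

/-- no derivative in the variables `(j, x)` -/
def Ind {σ ι : Type} (j : ι) (q : MvPolynomial (ι × σ) ℂ) : Prop := ∀ x, pderiv (j, x) q = 0

theorem ind_mul {σ ι : Type} {j : ι} {p q : MvPolynomial (ι × σ) ℂ} (hp : Ind j p) (hq : Ind j q) :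
    Ind j (p * q) := by
  intro x
  rw [Derivation.leibniz, hp x, hq x, smul_zero, smul_zero, add_zero]

theorem ind_C {σ ι : Type} (j : ι) (c : ℂ) : Ind j (C c : MvPolynomial (ι × σ) ℂ) :=
  fun x => pderiv_C

theorem ind_one {σ ι : Type} (j : ι) : Ind j (1 : MvPolynomial (ι × σ) ℂ) := by
  rw [← C_1]
  exact ind_C j 1

theorem ind_prod {σ ι : Type} {j : ι} (T : Finset ι) (g : ι → MvPolynomial (ι × σ) ℂ)
    (h : ∀ i ∈ T, Ind j (g i)) : Ind j (∏ i ∈ T, g i) :=
  Finset.prod_induction g (Ind j) (fun _ _ => ind_mul) (ind_one j) h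

theorem ind_pow {σ ι : Type} {j : ι} {p : MvPolynomial (ι × σ) ℂ} (hp : Ind j p) (n : ℕ) :
    Ind j (p ^ n) := by
  induction n with
  | zero => rw [pow_zero]; exact ind_one j
  | succ n ih => rw [pow_succ]; exact ind_mul ih hp

theorem t : BPI := by
  classical
  intro σ _ ι _ f b hb
  choose P hP h hh hN using hb
  choose P' hP' hL using fun i => lift ι i (P i) (hP i)
  have key : ∀ T : Finset ι, ∃ Q ∈ DSk ℂ (ι × σ), ∀ N : ℕ,
      Q (N : ℂ) (∏ i, rename (fun x => (i, x)) (f i) ^ (N + 1)) =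
        C (∏ i ∈ T, algebraMap ℚ ℂ ((b i).eval (N : ℚ))) *
          (∏ i ∈ T, rename (fun x => (i, x)) (h i)) *
          (∏ i ∈ T, rename (fun x => (i, x)) (f i) ^ N) *
          ∏ i ∈ Tᶜ, rename (fun x => (i, x)) (f i) ^ (N + 1) := by
    intro T
    induction T using Finset.induction_on with
    | empty =>
      refine ⟨1, Subalgebra.one_mem _, fun N => ?_⟩
      simp
    | insert j T hj ih =>
      obtain ⟨Q, hQ, ih⟩ := ih
      refine ⟨P' j * Q, Subalgebra.mul_mem _ (hP' j) hQ, fun N => ?_⟩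
      have hjc : j ∈ Tᶜ := Finset.mem_compl.2 hj
      have hcomp : Tᶜ = insert j (insert j T)ᶜ := by
        ext i
        simp only [Finset.mem_compl, Finset.mem_insert]
        by_cases hij : i = j
        · subst hij
          simp [hj]
        · simp [hij]
      have hjn : j ∉ (insert j T)ᶜ := by simp
      rw [Pi.mul_apply, Module.End.mul_apply, ih N, hcomp, Finset.prod_insert hjn]
      have hne : ∀ i ∈ T, i ≠ j := fun i hi h => hj (h ▸ hi)
      have hne' : ∀ i ∈ (insert j T)ᶜ, i ≠ j := fun i hi h => hjn (h ▸ hi)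
      set q : MvPolynomial (ι × σ) ℂ := C (∏ i ∈ T, algebraMap ℚ ℂ ((b i).eval (N : ℚ))) *
          (∏ i ∈ T, rename (fun x => (i, x)) (h i)) *
          (∏ i ∈ T, rename (fun x => (i, x)) (f i) ^ N) *
          ∏ i ∈ (insert j T)ᶜ, rename (fun x => (i, x)) (f i) ^ (N + 1) with hq
      have hind : Ind j q := by
        rw [hq]
        refine ind_mul (ind_mul (ind_mul (ind_C j _) ?_) ?_) ?_
        · exact ind_prod T _ fun i hi x => pd_rename (hne i hi) _ x
        · exact ind_prod T _ fun i hi => ind_pow (fun x => pd_rename (hne i hi) _ x) N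
        · exact ind_prod _ _ fun i hi => ind_pow (fun x => pd_rename (hne' i hi) _ x) (N + 1)
      have e1 : C (∏ i ∈ T, algebraMap ℚ ℂ ((b i).eval (N : ℚ))) *
          (∏ i ∈ T, rename (fun x => (i, x)) (h i)) *
          (∏ i ∈ T, rename (fun x => (i, x)) (f i) ^ N) *
          (rename (fun x => (j, x)) (f j) ^ (N + 1) *
            ∏ i ∈ (insert j T)ᶜ, rename (fun x => (i, x)) (f i) ^ (N + 1)) =
          rename (fun x => (j, x)) (f j ^ (N + 1)) * q := by
        rw [hq, map_pow]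
        ring
      rw [e1, hL j (N : ℂ) _ q hind, hN j N, Finset.prod_insert hj, Finset.prod_insert hj,
        Finset.prod_insert hj, hq]
      simp only [map_mul, map_pow, rename_C]
      ring
  obtain ⟨Q, hQ, hk⟩ := key Finset.univ
  refine ⟨Q, hQ, ∏ i, rename (fun x => (i, x)) (h i), ?_, fun N => ?_⟩
  · rw [map_prod]
    refine Finset.prod_ne_zero_iff.2 fun i _ => ?_
    rw [constantCoeff_rename]
    exact hh i
  · have h1 := hk N
    rw [Finset.compl_univ, Finset.prod_empty, mul_one, Finset.prod_pow, Finset.prod_pow] at h1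
    rw [h1, Polynomial.eval_prod, map_prod (algebraMap ℚ ℂ)]

end Pool.Agent.Helper41.HG.BPI
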